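import Pool.Agent.H14.FRU.TDefs
import Pool.Agent.H64.CpImages

/-!
Module LZQ: Luzin's axiom implies a positive answer to the question.
-/

open Set Topology Cardinal Filter

namespace FRU

open Pool.Agent.H64.CpImages (W mk_W Det exists_det exists_independent)

theorem lzq_card (Y : Type) [TopologicalSpace Y] [CompactSpace Y] [T2Space Y] (hY : #Y ≤ 𝔠) :
    #C(Y, ℝ) ≤ 𝔠 := by
  classical
  have hsep : ∀ p : Y × Y, ∃ f : C(Y, ℝ), p.1 ≠ p.2 → f p.1 ≠ f p.2 := by
    rintro ⟨x, y⟩
    by_cases h : x = y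
    · exact ⟨0, fun h' => absurd h h'⟩
    · obtain ⟨f, h0, h1, -⟩ := exists_continuous_zero_one_of_isClosed
        (isClosed_singleton (x := x)) (isClosed_singleton (x := y))
        (by rw [Set.disjoint_singleton]; exact h)
      refine ⟨f, fun _ => ?_⟩
      have h0' : f x = 0 := h0 rfl
      have h1' : f y = 1 := h1 rfl
      simp only
      rw [h0', h1']
      exact zero_ne_one
  choose F hF using hsep
  set A : Subalgebra ℝ C(Y, ℝ) := Algebra.adjoin ℝ (Set.range F) with hA
  have hAs : A.SeparatesPoints := by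
    intro x y hxy
    refine ⟨F (x, y), ⟨F (x, y), Algebra.subset_adjoin ⟨_, rfl⟩, rfl⟩, hF (x, y) hxy⟩
  have htop := ContinuousMap.subalgebra_topologicalClosure_eq_top_of_separatesPoints A hAs
  have hAc : #A ≤ 𝔠 := by
    refine (Algebra.cardinalMk_adjoin_le ℝ (Set.range F)).trans ?_
    refine max_le (max_le ?_ ?_) Cardinal.aleph0_le_continuum
    · rw [Cardinal.mk_real]
    · refine Cardinal.mk_range_le.trans ?_
      rw [Cardinal.mk_prod, Cardinal.lift_id]
      exact (mul_le_mul' hY hY).trans_eq Cardinal.continuum_mul_self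
  have hlim : ∀ f : C(Y, ℝ), ∃ s : ℕ → A, Tendsto (fun n => (s n : C(Y, ℝ))) atTop (𝓝 f) := by
    intro f
    have hf : f ∈ closure (A : Set C(Y, ℝ)) := by
      have h : f ∈ A.topologicalClosure := by rw [htop]; trivial
      exact h
    obtain ⟨s, hs, hs'⟩ := mem_closure_iff_seq_limit.1 hf
    exact ⟨fun n => ⟨s n, hs n⟩, hs'⟩
  choose s hs using hlim
  have hinj : Function.Injective s := by
    intro f g hfg
    refine tendsto_nhds_unique (hs f) ?_
    rw [hfg]
    exact hs g
  refine (Cardinal.mk_le_of_injective hinj).trans ?_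
  rw [← Cardinal.power_def, Cardinal.mk_nat]
  calc #A ^ ℵ₀ ≤ 𝔠 ^ ℵ₀ := Cardinal.power_le_power_right hAc
    _ = 𝔠 := Cardinal.continuum_power_aleph0

theorem lzq_det {K : Type} [TopologicalSpace K] {A : Set K}
    {g : Pool.Agent.H64.CpImages.Cp K → ℝ} (hg : Continuous g) (hA : Det A g)
    {k k' : Pool.Agent.H64.CpImages.Cp K} (h : ∀ x ∈ A, k.1 x = k'.1 x) : g k = g k' := by
  have key : ∀ ε : ℝ, 0 < ε → |g k' - g k| ≤ ε := by
    intro ε hε
    obtain ⟨b, hbA, hb1, hb2⟩ := hA.exists_finset hg k hε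
    refine hb2 k' fun c hc => ?_
    rw [← h c.1 (hbA c hc)]
    exact hb1 c hc
  have h0 : |g k' - g k| ≤ 0 := le_of_forall_pos_le_add fun ε hε => by
    rw [zero_add]
    exact key ε hε
  have h1 := abs_nonpos_iff.1 h0
  linarith

theorem lzq_closure {K : Type} [TopologicalSpace K] [T2Space K] [FrechetUrysohnSpace K]
    (A : Set K) (hA : #A ≤ ℵ₁) : #(closure A) ≤ 𝔠 := by
  have hlim : ∀ x : closure A, ∃ s : ℕ → A, Tendsto (fun n => (s n : K)) atTop (𝓝 (x : K)) := by
    intro x
    obtain ⟨s, hs, hs'⟩ := mem_closure_iff_seq_limit.1 x.2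
    exact ⟨fun n => ⟨s n, hs n⟩, hs'⟩
  choose s hs using hlim
  have hinj : Function.Injective s := by
    intro x y hxy
    apply Subtype.ext
    refine tendsto_nhds_unique (hs x) ?_
    rw [hxy]
    exact hs y
  refine (Cardinal.mk_le_of_injective hinj).trans ?_
  rw [← Cardinal.power_def, Cardinal.mk_nat]
  calc #A ^ ℵ₀ ≤ 𝔠 ^ ℵ₀ := Cardinal.power_le_power_right (hA.trans Cardinal.aleph_one_le_continuum)
    _ = 𝔠 := Cardinal.continuum_power_aleph0

theorem fru_lzq : LZQStmt := by
  classical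
  intro hL K _ _ _ _ Y _ _ _ f hf hs
  by_contra hY
  obtain ⟨H, hH⟩ := exists_independent (φ := f) hf hs hY
  have hdet : ∀ a : W, ∃ A : Set K, A.Countable ∧ Det A (fun k => H a (f k)) := fun a =>
    exists_det _
  choose A hAc hAd using hdet
  set B : Set K := ⋃ a, A a with hB
  have hBc : #B ≤ ℵ₁ := by
    refine (Cardinal.mk_iUnion_le_sum_mk).trans ?_
    refine (Cardinal.sum_le_mk_mul_iSup _).trans ?_
    rw [mk_W]
    refine (mul_le_mul' le_rfl (ciSup_le' fun a => (hAc a).le_aleph0)).trans ?_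
    exact (mul_le_mul' le_rfl (Cardinal.aleph0_le_aleph 1)).trans_eq
      (Cardinal.mul_eq_self (Cardinal.aleph0_le_aleph 1))
  have hcc : CompactSpace (closure B) := isCompact_iff_compactSpace.1 isClosed_closure.isCompact
  have hC := lzq_card (closure B) (lzq_closure B hBc)
  have hpat : ∀ t : W → Prop, ∃ k : {g : K → ℝ // Continuous g},
      ∀ a, (t a → 1 ≤ H a (f k)) ∧ (¬ t a → H a (f k) ≤ 0) := by
    intro t
    obtain ⟨y, hy⟩ := hH t
    obtain ⟨k, rfl⟩ := hs y
    exact ⟨k, hy⟩
  choose k hk using hpat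
  have hinj : Function.Injective (fun t : W → Prop =>
      (⟨fun x : closure B => (k t).1 x, (k t).2.comp continuous_subtype_val⟩ :
        C(closure B, ℝ))) := by
    intro t t' htt
    have hag : ∀ x ∈ B, (k t).1 x = (k t').1 x := by
      intro x hx
      exact DFunLike.congr_fun htt ⟨x, subset_closure hx⟩
    funext a
    have he : H a (f (k t)) = H a (f (k t')) :=
      lzq_det (g := fun k => H a (f k)) ((H a).continuous.comp hf)
        ((hAd a).mono (Set.subset_iUnion A a)) hag
    by_cases h1 : t a <;> by_cases h2 : t' a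
    · rw [eq_true h1, eq_true h2]
    · have := (hk t a).1 h1
      have := (hk t' a).2 h2
      linarith
    · have := (hk t a).2 h1
      have := (hk t' a).1 h2
      linarith
    · rw [eq_false h1, eq_false h2]
  have h1 : #(W → Prop) ≤ 𝔠 := (Cardinal.mk_le_of_injective hinj).trans hC
  rw [← Cardinal.power_def, mk_W, Cardinal.mk_Prop] at h1
  rw [Cardinal.two_power_aleph0] at hL
  exact absurd h1 (not_le.2 hL)

end FRU
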