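import Pool.Agent.H14.FRU.TDefs

/-!
Module PSI: the space `Ψ` of an almost disjoint family is Hausdorff and locally compact.
-/

open Set Topology Cardinal

namespace FRU

variable {D I : Type} {g : I → Set D}

theorem psi_isOpen_pt (d : D) : IsOpen ({Psi.pt g d} : Set (Psi g)) := by
  rw [Psi.isOpen_iff]
  intro i hi
  exact absurd hi Sum.inr_ne_inl

/-- the basic neighbourhood of `ix i` given by a set `s` -/
def psi_nb (g : I → Set D) (i : I) (s : Set D) : Set (Psi g) := {Psi.ix g i} ∪ Psi.pt g '' s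

theorem psi_ix_ne_pt (i : I) (d : D) : Psi.ix g i ≠ Psi.pt g d := Sum.inr_ne_inl

theorem psi_pt_inj {d d' : D} (h : Psi.pt g d = Psi.pt g d') : d = d' := Sum.inl_injective h

theorem psi_ix_inj {i i' : I} (h : Psi.ix g i = Psi.ix g i') : i = i' := Sum.inr_injective h

theorem psi_mem_nb_ix {i i' : I} {s : Set D} (h : Psi.ix g i' ∈ psi_nb g i s) : i' = i := by
  rcases h with h | ⟨d, -, hd⟩
  · exact psi_ix_inj h
  · exact absurd hd.symm (psi_ix_ne_pt i' d)

theorem psi_mem_nb_pt {i : I} {s : Set D} {d : D} : Psi.pt g d ∈ psi_nb g i s ↔ d ∈ s := by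
  constructor
  · rintro (h | ⟨d', hd', h⟩)
    · exact absurd h.symm (psi_ix_ne_pt i d)
    · rwa [← psi_pt_inj h]
  · exact fun h => Or.inr ⟨d, h, rfl⟩

theorem psi_isOpen_nb (i : I) (s : Set D) (h : (g i \ s).Finite) : IsOpen (psi_nb g i s) := by
  rw [Psi.isOpen_iff]
  intro i' hi'
  rw [psi_mem_nb_ix hi']
  refine h.subset fun d hd => ⟨hd.1, fun h' => hd.2 (psi_mem_nb_pt.2 h')⟩

theorem psi_isCompact_nb (i : I) : IsCompact (psi_nb g i (g i)) := by
  classical
  refine isCompact_of_finite_subcover fun {ι} U hU hc => ?_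
  obtain ⟨k, hk⟩ := Set.mem_iUnion.1 (hc (Or.inl rfl))
  have hfin := Psi.isOpen_iff.1 (hU k) i hk
  have : Nonempty ι := ⟨k⟩
  have hch : ∀ d : D, d ∈ g i → ∃ k, Psi.pt g d ∈ U k := fun d hd =>
    Set.mem_iUnion.1 (hc (psi_mem_nb_pt.2 hd))
  choose! F hF using hch
  refine ⟨insert k (hfin.toFinset.image F), ?_⟩
  rintro x (hx | ⟨d, hd, rfl⟩)
  · rw [hx]
    exact Set.mem_biUnion (Finset.mem_coe.2 (Finset.mem_insert_self _ _)) hk
  · by_cases hdk : Psi.pt g d ∈ U k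
    · exact Set.mem_biUnion (Finset.mem_coe.2 (Finset.mem_insert_self _ _)) hdk
    · refine Set.mem_biUnion (x := F d) (Finset.mem_coe.2 (Finset.mem_insert_of_mem
        (Finset.mem_image.2 ⟨d, ?_, rfl⟩))) (hF d hd)
      rw [Set.Finite.mem_toFinset]
      exact ⟨hd, hdk⟩

theorem psi_t2 (h : AD g) : T2Space (Psi g) := by
  refine ⟨fun x y hxy => ?_⟩
  have key : ∀ (d : D) (i : I), ∃ U V : Set (Psi g), IsOpen U ∧ IsOpen V ∧ Psi.pt g d ∈ U ∧
      Psi.ix g i ∈ V ∧ Disjoint U V := by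
    intro d i
    refine ⟨{Psi.pt g d}, psi_nb g i (g i \ {d}), psi_isOpen_pt d, psi_isOpen_nb i _ ?_, rfl,
      Or.inl rfl, ?_⟩
    · refine (Set.finite_singleton d).subset fun z hz => ?_
      by_contra hne
      exact hz.2 ⟨hz.1, hne⟩
    · rw [Set.disjoint_singleton_left]
      intro h'
      exact (psi_mem_nb_pt.1 h').2 rfl
  rcases x with d | i <;> rcases y with d' | i'
  · refine ⟨{Psi.pt g d}, {Psi.pt g d'}, psi_isOpen_pt d, psi_isOpen_pt d', rfl, rfl, ?_⟩
    rw [Set.disjoint_singleton]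
    exact hxy
  · exact key d i'
  · obtain ⟨U, V, hU, hV, h1, h2, h3⟩ := key d' i
    exact ⟨V, U, hV, hU, h2, h1, h3.symm⟩
  · have hne : i ≠ i' := fun h' => hxy (by rw [h'])
    refine ⟨psi_nb g i (g i \ g i'), psi_nb g i' (g i' \ g i), psi_isOpen_nb i _ ?_,
      psi_isOpen_nb i' _ ?_, Or.inl rfl, Or.inl rfl, ?_⟩
    · refine (h i i' hne).subset fun z hz => ⟨hz.1, ?_⟩
      by_contra hne
      exact hz.2 ⟨hz.1, hne⟩
    · refine (h i' i hne.symm).subset fun z hz => ⟨hz.1, ?_⟩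
      by_contra hne
      exact hz.2 ⟨hz.1, hne⟩
    · rw [Set.disjoint_left]
      rintro z (hz | ⟨d, hd, rfl⟩) hz'
      · rw [hz] at hz'
        exact hne (psi_mem_nb_ix hz')
      · exact (psi_mem_nb_pt.1 hz').2 hd.1

theorem fru_psi : PSIStmt := by
  intro D I g h
  have h2 : T2Space (Psi g) := psi_t2 h
  refine ⟨h2, ?_⟩
  have hw : WeaklyLocallyCompactSpace (Psi g) := by
    refine ⟨fun x => ?_⟩
    rcases x with d | i
    · exact ⟨{Psi.pt g d}, isCompact_singleton, (psi_isOpen_pt d).mem_nhds rfl⟩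
    · exact ⟨psi_nb g i (g i), psi_isCompact_nb i,
        (psi_isOpen_nb i _ (by simp)).mem_nhds (Or.inl rfl)⟩
  infer_instance

end FRU
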