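import Pool.Agent.H14.FRU.TDefs

/-!
Module URN: separation by a continuous function on the complement of a compact set.
-/

open Set Topology Cardinal

namespace FRU

open Classical in
/-- functions with values `0`, `1`, which vanish outside `u` -/
def urnE {T : Type} (u : Set T) : Set (T → ℝ) :=
  Set.pi Set.univ fun t => if t ∈ u then {0, 1} else {0}

theorem urn_isCompact {T : Type} (u : Set T) : IsCompact (urnE u) := by
  classical
  refine isCompact_univ_pi fun t => Set.Finite.isCompact ?_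
  split_ifs
  · exact (Set.finite_singleton _).insert _
  · exact Set.finite_singleton _

theorem urn_mem {T : Type} {u v : Set T} (h : v ⊆ u) :
    (v.indicator (fun _ => 1) : T → ℝ) ∈ urnE u := by
  classical
  intro t _
  by_cases ht : t ∈ v
  · simp [Set.indicator_of_mem ht, h ht]
  · rw [Set.indicator_of_notMem ht]
    dsimp only
    split_ifs
    · exact Or.inl rfl
    · rfl

theorem urn_zero {T : Type} {u : Set T} {w : T → ℝ} (h1 : w ∈ urnE u) (h2 : w ∈ urnE uᶜ) :
    w = 0 := by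
  classical
  funext t
  by_cases ht : t ∈ u
  · have := h2 t (Set.mem_univ t)
    have h' : t ∉ uᶜ := fun h => h ht
    simpa [h'] using this
  · have := h1 t (Set.mem_univ t)
    simpa [ht] using this

theorem urn_ne {T : Type} {u : Set T} (h : u.Nonempty) :
    (u.indicator (fun _ => 1) : T → ℝ) ≠ 0 := by
  obtain ⟨t, ht⟩ := h
  intro h'
  have := congrFun h' t
  rw [Set.indicator_of_mem ht] at this
  exact one_ne_zero this

theorem fru_urn : URNStmt := by
  classical
  intro S T _ _ B hB T1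
  set O : Set ((S → ℝ) × (T → ℝ)) := {p | ¬ (p.1 ∈ B ∧ p.2 = 0)} with hO
  have hc1 : IsClosed (B ×ˢ urnE T1) := (hB.prod (urn_isCompact T1)).isClosed
  have hc0 : IsClosed (B ×ˢ urnE T1ᶜ) := (hB.prod (urn_isCompact T1ᶜ)).isClosed
  have hF1 : IsClosed ((Subtype.val : O → _) ⁻¹' (B ×ˢ urnE T1)) := hc1.preimage continuous_subtype_val
  have hF0 : IsClosed ((Subtype.val : O → _) ⁻¹' (B ×ˢ urnE T1ᶜ)) :=
    hc0.preimage continuous_subtype_val
  have hdis : Disjoint ((Subtype.val : O → _) ⁻¹' (B ×ˢ urnE T1ᶜ))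
      ((Subtype.val : O → _) ⁻¹' (B ×ˢ urnE T1)) := by
    rw [Set.disjoint_left]
    rintro ⟨p, hp⟩ h0 h1
    exact hp ⟨h0.1, urn_zero h1.2 h0.2⟩
  obtain ⟨f, hf0, hf1, hf⟩ := exists_continuous_zero_one_of_isClosed hF0 hF1 hdis
  refine ⟨fun p => if h : p ∈ O then f ⟨p, h⟩ else 0, fun p => ?_, ?_, fun v hv u hu hu1 => ?_,
    fun v hv u hu hu1 => ?_⟩
  · by_cases h : p ∈ O
    · simp only [h, dite_true]
      exact hf ⟨p, h⟩
    · simp only [h, dite_false]
      exact ⟨le_refl _, zero_le_one⟩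
  · rw [continuousOn_iff_continuous_domRestrict]
    refine f.continuous.congr fun x => ?_
    have hx : (x : (S → ℝ) × (T → ℝ)) ∈ O := x.2
    change f x = if h : (x : (S → ℝ) × (T → ℝ)) ∈ O then f ⟨x, h⟩ else 0
    rw [dif_pos hx]
  · have hp : ((v, u.indicator (fun _ => 1)) : (S → ℝ) × (T → ℝ)) ∈ O := fun h => urn_ne hu h.2
    simp only [hp, dite_true]
    exact hf1 (x := ⟨_, hp⟩) ⟨hv, urn_mem hu1⟩
  · have hp : ((v, u.indicator (fun _ => 1)) : (S → ℝ) × (T → ℝ)) ∈ O := fun h => urn_ne hu h.2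
    simp only [hp, dite_true]
    exact hf0 (x := ⟨_, hp⟩) ⟨hv, urn_mem hu1⟩

end FRU
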