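import Pool.Agent.H14.FRU.TDefs

/-!
Module ZFZ: Luzin's axiom for the class of all sets.
-/

open Set Topology Cardinal

namespace FRU

/-- the membership relation of `ZFSet` -/
abbrev zfzE : ZFSet.{0} → ZFSet.{0} → Prop := fun x y => x ∈ y

theorem zfz_incl {x y : ZFSet.{0}} : Incl zfzE x y ↔ x ⊆ y := Iff.rfl

theorem zfz_isOP {z a b : ZFSet.{0}} : IsOP zfzE z a b ↔ z = ZFSet.pair a b := by
  constructor
  · rintro ⟨s, t, hs, ht, hz⟩
    have hs' : s = {a} := ZFSet.ext fun w => (hs w).trans ZFSet.mem_singleton.symm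
    have ht' : t = {a, b} := ZFSet.ext fun w => (ht w).trans ZFSet.mem_pair.symm
    subst hs' ht'
    exact ZFSet.ext fun w => (hz w).trans ZFSet.mem_pair.symm
  · rintro rfl
    exact ⟨{a}, {a, b}, fun w => ZFSet.mem_singleton, fun w => ZFSet.mem_pair,
      fun w => ZFSet.mem_pair⟩

theorem zfz_pairIn {a b R : ZFSet.{0}} : PairIn zfzE a b R ↔ ZFSet.pair a b ∈ R := by
  constructor
  · rintro ⟨z, hz, hR⟩
    rw [zfz_isOP] at hz
    rwa [← hz]
  · exact fun h => ⟨_, zfz_isOP.2 rfl, h⟩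

theorem zfz_inductive {z : ZFSet.{0}} : IsInductive zfzE z ↔
    ∅ ∈ z ∧ ∀ y ∈ z, insert y y ∈ z := by
  constructor
  · rintro ⟨⟨t, ht, htz⟩, h⟩
    have ht' : t = ∅ := ZFSet.ext fun w => ⟨fun h => absurd h (ht w), fun h =>
      absurd h (ZFSet.notMem_empty w)⟩
    refine ⟨ht' ▸ htz, fun y hy => ?_⟩
    obtain ⟨s, hs, hsz⟩ := h y hy
    have hs' : s = insert y y := ZFSet.ext fun w =>
      (hs w).trans (or_comm.trans ZFSet.mem_insert_iff.symm)
    rwa [← hs']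
  · rintro ⟨h0, h1⟩
    refine ⟨⟨∅, fun s => ZFSet.notMem_empty s, h0⟩, fun y hy => ⟨insert y y, fun t => ?_, h1 y hy⟩⟩
    exact ZFSet.mem_insert_iff.trans or_comm

theorem zfz_omega_inductive : IsInductive zfzE Ordinal.omega0.toZFSet := by
  rw [zfz_inductive]
  constructor
  · rw [← Ordinal.toZFSet_zero, Ordinal.toZFSet_mem_toZFSet_iff]
    exact Ordinal.omega0_pos
  · intro y hy
    rw [Ordinal.mem_toZFSet_iff] at hy
    obtain ⟨a, ha, rfl⟩ := hy
    rw [← Ordinal.toZFSet_add_one, Ordinal.toZFSet_mem_toZFSet_iff]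
    exact Ordinal.isSuccLimit_omega0.add_one_lt ha

theorem zfz_omega {o : ZFSet.{0}} (h : IsOmega zfzE o) : o = Ordinal.omega0.toZFSet := by
  have h1 : o ⊆ Ordinal.omega0.toZFSet := h.2 _ zfz_omega_inductive
  refine ZFSet.ext fun w => ⟨fun hw => h1 hw, fun hw => ?_⟩
  rw [Ordinal.mem_toZFSet_iff] at hw
  obtain ⟨a, ha, rfl⟩ := hw
  obtain ⟨n, rfl⟩ := Ordinal.lt_omega0.1 ha
  have h2 := zfz_inductive.1 h.1
  clear ha
  induction n with
  | zero => rw [Nat.cast_zero, Ordinal.toZFSet_zero]; exact h2.1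
  | succ n ih =>
    rw [Nat.cast_succ, Ordinal.toZFSet_add_one]
    exact h2.2 _ ih

theorem zfz_card_le_of_injective {x y : ZFSet.{0}} (f : x → y) (hf : Function.Injective f) :
    ZFSet.card x ≤ ZFSet.card y := by
  have h := Cardinal.mk_le_of_injective hf
  rwa [ZFSet.cardinalMk_coe_sort, ZFSet.cardinalMk_coe_sort, Cardinal.lift_le] at h

theorem zfz_countable {x : ZFSet.{0}} (h : IsCountable zfzE x) : ZFSet.card x ≤ ℵ₀ := by
  obtain ⟨o, f, ho, h1, -, h3⟩ := h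
  have h1' : ∀ y : x, ∃ n : o, PairIn zfzE (y : ZFSet) (n : ZFSet) f := fun y => by
    obtain ⟨n, hn, hn'⟩ := h1 y.1 y.2
    exact ⟨⟨n, hn⟩, hn'⟩
  choose F hF using h1'
  have hinj : Function.Injective F := by
    intro y y' hyy
    have h := hF y'
    rw [← hyy] at h
    exact Subtype.ext (h3 y.1 y'.1 (F y).1 y.2 y'.2 (hF y) h)
  refine (zfz_card_le_of_injective F hinj).trans ?_
  rw [zfz_omega ho, Ordinal.card_toZFSet, Ordinal.card_omega0]

theorem zfz_card_omegaOne {w : ZFSet.{0}} (h : IsOmegaOne zfzE w) : ZFSet.card w ≤ ℵ₁ := by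
  have hord : w.IsOrdinal := by
    rw [ZFSet.isOrdinal_iff_forall_mem_isTransitive]
    exact ⟨fun y hy => h.1.1 y hy, fun y hy z hz => h.1.2 y hy z hz⟩
  have hr : w.rank.toZFSet = w := hord.toZFSet_rank_eq
  rw [← hr, Ordinal.card_toZFSet]
  have hle : w.rank ≤ (ℵ₁ : Cardinal).ord := by
    by_contra hlt
    rw [not_le] at hlt
    have hm : (ℵ₁ : Cardinal).ord.toZFSet ∈ w := by
      rw [← hr, Ordinal.toZFSet_mem_toZFSet_iff]
      exact hlt
    have hc := zfz_countable (h.2.2 _ hm)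
    rw [Ordinal.card_toZFSet, Cardinal.card_ord] at hc
    exact absurd hc (not_le.2 Cardinal.aleph0_lt_aleph_one)
  calc w.rank.card ≤ ((ℵ₁ : Cardinal).ord).card := Ordinal.card_le_card hle
    _ = ℵ₁ := Cardinal.card_ord _

theorem fru_zfz : ZFZStmt := by
  rintro ⟨w, o, hw, ho, h⟩
  by_contra hcon
  rw [not_lt] at hcon
  apply h
  have hc : ZFSet.card (ZFSet.powerset w) ≤ ZFSet.card (ZFSet.powerset o) := by
    rw [ZFSet.card_powerset, ZFSet.card_powerset, zfz_omega ho, Ordinal.card_toZFSet,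
      Ordinal.card_omega0]
    exact (Cardinal.power_le_power_left two_ne_zero (zfz_card_omegaOne hw)).trans hcon
  have hc' : #(ZFSet.powerset w) ≤ #(ZFSet.powerset o) := by
    rw [ZFSet.cardinalMk_coe_sort, ZFSet.cardinalMk_coe_sort, Cardinal.lift_le]
    exact hc
  obtain ⟨F⟩ := hc'
  refine ⟨ZFSet.sep (fun z => ∃ X : ZFSet.powerset w, z = ZFSet.pair (X : ZFSet) (F X : ZFSet))
    ((ZFSet.powerset w).prod (ZFSet.powerset o)), fun X hX => ?_, fun X X' y hX hX' h1 h2 => ?_⟩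
  · have hXm : X ∈ ZFSet.powerset w := ZFSet.mem_powerset.2 hX
    refine ⟨F ⟨X, hXm⟩, ZFSet.mem_powerset.1 (F ⟨X, hXm⟩).2, ?_⟩
    rw [zfz_pairIn, ZFSet.mem_sep]
    exact ⟨ZFSet.pair_mem_prod.2 ⟨hXm, (F ⟨X, hXm⟩).2⟩, ⟨X, hXm⟩, rfl⟩
  · rw [zfz_pairIn, ZFSet.mem_sep] at h1 h2
    obtain ⟨-, A, hA⟩ := h1
    obtain ⟨-, B, hB⟩ := h2
    obtain ⟨hA1, hA2⟩ := ZFSet.pair_inj.1 hA
    obtain ⟨hB1, hB2⟩ := ZFSet.pair_inj.1 hB
    have hFF : F A = F B := Subtype.ext (hA2.symm.trans hB2)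
    rw [hA1, hB1, F.injective hFF]

end FRU
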